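import Pool.Agent.H260R3.Final

/-!
# MP_18b2cf_co, Q1: the exponent constant for the number of combinatorial types of `d`-polytopes

`H260R3.numTypes d v` is the number `N_d(v)` of combinatorial types of convex `d`-polytopes with
exactly `v` vertices.  For every `d ≥ 4`,
`liminf log N_d(v) / (v log v) ≥ d (⌊d/2⌋ - 1)`.
-/

namespace Pool.Agent.Results.MP_18b2cf_co.QuadraticExponent

open H260R3 Filter

theorem result :
    (∀ d v : ℕ, Finite (Quotient (combEquiv d v))) ∧
    ∀ d : ℕ, 4 ≤ d →
      (((d * (d / 2 - 1) : ℕ) : ℝ) : EReal) ≤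
        liminf (fun v : ℕ => ((Real.log (numTypes d v) / (v * Real.log v) : ℝ) : EReal)) atTop :=
  ⟨finite_types, final⟩

end Pool.Agent.Results.MP_18b2cf_co.QuadraticExponent
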